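import Mathlib

/-!
# QT-NST, abstract form: tuples of conductor `S` and colourings of `S`
-/

set_option autoImplicit false
set_option linter.unusedVariables false
set_option linter.unusedSectionVars false

open scoped Classical

namespace Pool.Agent.N86.QT

open Finset

/-- the colours -/
abbrev Qn (n : ℕ) : Type := {q : Finset (Fin n) // q.Nonempty}

section

variable {R : Type} [CommRing R] [IsDomain R]

/-- the subset of the `π ∈ S` whose colour meets `T` in an odd number of elements -/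
noncomputable def od {n : ℕ} (γ : R → Qn n) (S : Finset R) (T : Finset (Fin n)) : Finset R :=
  S.filter fun π => Odd ((γ π).1 ∩ T).card

/-- the tuple of a colouring -/
noncomputable def tup {n : ℕ} (γ : R → Qn n) (S : Finset R) (i : Fin n) : R :=
  ∏ π ∈ S.filter (fun π => i ∈ (γ π).1), π

lemma od_single {n : ℕ} (γ : R → Qn n) (S : Finset R) (i : Fin n) :
    od γ S {i} = S.filter (fun π => i ∈ (γ π).1) := by
  unfold od
  refine filter_congr fun π _ => ?_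
  by_cases h : i ∈ (γ π).1
  · rw [inter_singleton_of_mem h, card_singleton]
    simp [h]
  · rw [inter_singleton_of_notMem h, card_empty]
    simp [h]

lemma tup_eq {n : ℕ} (γ : R → Qn n) (S : Finset R) (i : Fin n) :
    tup γ S i = ∏ π ∈ od γ S {i}, π := by
  rw [od_single]; rfl

/-- the square part -/
noncomputable def cT {n : ℕ} (γ : R → Qn n) (S : Finset R) (T : Finset (Fin n)) : R :=
  ∏ π ∈ S, π ^ (((γ π).1 ∩ T).card / 2)

lemma prod_tup {n : ℕ} (γ : R → Qn n) (S : Finset R) (T : Finset (Fin n)) :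
    ∏ i ∈ T, tup γ S i = (∏ π ∈ od γ S T, π) * cT γ S T ^ 2 := by
  have h1 : ∏ i ∈ T, tup γ S i = ∏ π ∈ S, π ^ ((γ π).1 ∩ T).card := by
    unfold tup
    simp only [prod_filter]
    rw [prod_comm]
    refine prod_congr rfl fun π _ => ?_
    rw [prod_ite, prod_const, prod_const_one, mul_one]
    congr 2
    ext i
    simp only [mem_filter, mem_inter]
    tauto
  rw [h1]
  unfold od cT
  rw [prod_filter, ← prod_pow, ← prod_mul_distrib]
  refine prod_congr rfl fun π _ => ?_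
  rw [← pow_mul]
  by_cases h : Odd ((γ π).1 ∩ T).card
  · rw [if_pos h, ← pow_succ']
    congr 1
    obtain ⟨k, hk⟩ := h
    omega
  · rw [if_neg h, one_mul]
    congr 1
    rw [Nat.not_odd_iff_even] at h
    obtain ⟨k, hk⟩ := h
    omega

lemma zmod2_mul (k : ℕ) (t : ZMod 2) : (k : ZMod 2) * t = if Odd k then t else 0 := by
  by_cases h : Odd k
  · rw [if_pos h]
    obtain ⟨j, rfl⟩ := h
    push_cast
    have : (2 : ZMod 2) = 0 := by decide
    rw [this]; ring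
  · rw [if_neg h]
    rw [Nat.not_odd_iff_even] at h
    obtain ⟨j, rfl⟩ := h
    push_cast
    have : (j : ZMod 2) + j = 0 := by
      have h2 : (2 : ZMod 2) = 0 := by decide
      rw [← two_mul, h2, zero_mul]
    rw [this, zero_mul]

lemma sum_od {n : ℕ} (γ : R → Qn n) (S : Finset R) (T : Finset (Fin n)) (tt : R → ZMod 2) :
    ∑ π ∈ od γ S T, tt π = ∑ i ∈ T, ∑ π ∈ od γ S {i}, tt π := by
  have h1 : ∀ T : Finset (Fin n), ∑ π ∈ od γ S T, tt π =
      ∑ π ∈ S, (((γ π).1 ∩ T).card : ZMod 2) * tt π := by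
    intro T
    unfold od
    rw [sum_filter]
    exact sum_congr rfl fun π _ => (zmod2_mul _ _).symm
  rw [h1 T]
  simp only [h1]
  rw [sum_comm]
  refine sum_congr rfl fun π _ => ?_
  rw [← sum_mul, ← Nat.cast_sum]
  congr 2
  have h2 : ∀ i ∈ T, ((γ π).1 ∩ {i}).card = if i ∈ (γ π).1 then 1 else 0 := by
    intro i _
    by_cases h : i ∈ (γ π).1
    · rw [inter_singleton_of_mem h, card_singleton, if_pos h]
    · rw [inter_singleton_of_notMem h, card_empty, if_neg h]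
  rw [sum_congr rfl h2, ← card_filter]
  congr 1
  ext i
  simp only [mem_filter, mem_inter]
  tauto

/-- what is used about the ring and its primes -/
structure Ax (Pq ClsE : R → Prop) (PD : R → Finset R) (tt : R → ZMod 2) : Prop where
  pr : ∀ π, Pq π → Prime π
  ne : ∀ N, ClsE N → N ≠ 0
  mem : ∀ N, N ≠ 0 → ∀ π, π ∈ PD N ↔ Pq π ∧ π ∣ N
  prod : ∀ N, ClsE N → ∏ π ∈ PD N, π = N
  cls : ∀ S : Finset R, (∀ π ∈ S, Pq π) → (ClsE (∏ π ∈ S, π) ↔ ∑ π ∈ S, tt π = 0)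
  PDp : ∀ S : Finset R, (∀ π ∈ S, Pq π) → PD (∏ π ∈ S, π) = S
  uniq : ∀ N N' c c' : R, ClsE N → ClsE N' → c ≠ 0 → c' ≠ 0 → N * c ^ 2 = N' * c' ^ 2 → N = N'
  one : ClsE 1

/-- no nonempty product is a square -/
def IndR {n : ℕ} (x : Fin n → R) : Prop :=
  ∀ T : Finset (Fin n), T.Nonempty → ∀ a b : R, b ≠ 0 → b ^ 2 * ∏ i ∈ T, x i ≠ a ^ 2

/-- the tuples with conductor `S` -/
def TupR (Pq ClsE : R → Prop) (n : ℕ) (S : Finset R) : Set (Fin n → R) :=
  {x | (∀ i, ClsE (x i)) ∧ IndR x ∧ ∀ π : R, Pq π → (π ∈ S ↔ ∃ i, π ∣ x i)}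

/-- the good tuples -/
def GoR (ClsE : R → Prop) (PD : R → Finset R) (Gd : Finset R → Prop) {n : ℕ}
    (𝒯 : Finset (Qn n)) (x : Fin n → R) : Prop :=
  ∀ T ∈ 𝒯, ∀ N c : R, ClsE N → c ≠ 0 → ∏ i ∈ T.1, x i = N * c ^ 2 → Gd (PD N)

section main

variable {Pq ClsE : R → Prop} {PD : R → Finset R} {tt : R → ZMod 2}
  (ax : Ax Pq ClsE PD tt) {n : ℕ} {S : Finset R} (hS : ∀ π ∈ S, Pq π)

include ax hS

lemma cT_ne (γ : R → Qn n) (T : Finset (Fin n)) : cT γ S T ≠ 0 := by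
  unfold cT
  rw [prod_ne_zero_iff]
  intro π hπ
  exact pow_ne_zero _ (ax.pr π (hS π hπ)).ne_zero

omit [IsDomain R] ax in
lemma od_pq (γ : R → Qn n) (T : Finset (Fin n)) : ∀ π ∈ od γ S T, Pq π := fun π hπ =>
  hS π (mem_filter.1 hπ).1

/-- the class condition for all systems from that of the single ones -/
lemma cls_all (γ : R → Qn n) (h : ∀ i, ClsE (tup γ S i)) (T : Finset (Fin n)) :
    ClsE (∏ π ∈ od γ S T, π) := by
  rw [ax.cls _ (od_pq hS γ T), sum_od]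
  refine sum_eq_zero fun i _ => ?_
  rw [← ax.cls _ (od_pq hS γ {i}), ← tup_eq]
  exact h i

lemma PD_od (γ : R → Qn n) (T : Finset (Fin n)) : PD (∏ π ∈ od γ S T, π) = od γ S T :=
  ax.PDp _ (od_pq hS γ T)

lemma N_eq (γ : R → Qn n) (h : ∀ i, ClsE (tup γ S i)) (T : Finset (Fin n)) {N c : R}
    (hN : ClsE N) (hc : c ≠ 0) (he : ∏ i ∈ T, tup γ S i = N * c ^ 2) :
    N = ∏ π ∈ od γ S T, π := by
  refine ax.uniq N _ c (cT γ S T) hN (cls_all ax hS γ h T) hc (cT_ne ax hS γ T) ?_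
  rw [← he, prod_tup]

lemma dvd_tup (γ : R → Qn n) (h : ∀ i, ClsE (tup γ S i)) {π : R} (hπ : Pq π) (i : Fin n) :
    π ∣ tup γ S i ↔ π ∈ S ∧ i ∈ (γ π).1 := by
  have h1 := ax.mem _ (ax.ne _ (h i)) π
  have h2 : PD (tup γ S i) = S.filter (fun π => i ∈ (γ π).1) := by
    rw [tup_eq, PD_od ax hS, od_single]
  rw [h2, mem_filter] at h1
  constructor
  · intro hd
    exact h1.2 ⟨hπ, hd⟩
  · intro hd
    exact (h1.1 hd).2

lemma tup_mem (γ : R → Qn n) (hcl : ∀ T : Qn n, ∑ π ∈ od γ S T.1, tt π = 0)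
    (hne : ∀ T : Qn n, od γ S T.1 ≠ ∅) : tup γ S ∈ TupR Pq ClsE n S := by
  have h : ∀ i, ClsE (tup γ S i) := by
    intro i
    rw [tup_eq, ax.cls _ (od_pq hS γ {i})]
    exact hcl ⟨{i}, singleton_nonempty i⟩
  refine ⟨h, ?_, ?_⟩
  · intro T hT a b hb hab
    apply hne ⟨T, hT⟩
    have hN := cls_all ax hS γ h T
    have ha : a ≠ 0 := by
      rintro rfl
      have h0 : b ^ 2 * ∏ i ∈ T, tup γ S i = 0 := by rw [hab]; ring
      rcases mul_eq_zero.1 h0 with h1 | h1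
      · exact hb (pow_eq_zero_iff (two_ne_zero) |>.1 h1)
      · rw [prod_eq_zero_iff] at h1
        obtain ⟨i, _, hi⟩ := h1
        exact ax.ne _ (h i) hi
    have h1 : (∏ π ∈ od γ S T, π) = 1 := by
      refine ax.uniq _ 1 (b * cT γ S T) a hN ax.one (mul_ne_zero hb (cT_ne ax hS γ T)) ha ?_
      rw [one_mul, ← hab, prod_tup]
      ring
    have h2 := PD_od ax hS γ T
    rw [h1] at h2
    have h3 := ax.PDp ∅ (by simp)
    rw [prod_empty] at h3
    show od γ S T = ∅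
    rw [← h2, h3]
  · intro π hπ
    constructor
    · intro h1
      obtain ⟨i, hi⟩ := (γ π).2
      exact ⟨i, (dvd_tup ax hS γ h hπ i).2 ⟨h1, hi⟩⟩
    · rintro ⟨i, hi⟩
      exact ((dvd_tup ax hS γ h hπ i).1 hi).1

lemma tup_good (γ : R → Qn n) (hcl : ∀ T : Qn n, ∑ π ∈ od γ S T.1, tt π = 0)
    (Gd : Finset R → Prop) (𝒯 : Finset (Qn n)) :
    GoR ClsE PD Gd 𝒯 (tup γ S) ↔ ∀ T ∈ 𝒯, Gd (od γ S T.1) := by
  have h : ∀ i, ClsE (tup γ S i) := by
    intro i
    rw [tup_eq, ax.cls _ (od_pq hS γ {i})]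
    exact hcl ⟨{i}, singleton_nonempty i⟩
  constructor
  · intro hg T hT
    have := hg T hT _ _ (cls_all ax hS γ h T.1) (cT_ne ax hS γ T.1) (prod_tup γ S T.1)
    rwa [PD_od ax hS] at this
  · intro hg T hT N c hN hc he
    rw [N_eq ax hS γ h T.1 hN hc he, PD_od ax hS]
    exact hg T hT

/-- a tuple with conductor `S` comes from a colouring -/
lemma exists_col {x : Fin n → R} (hx : x ∈ TupR Pq ClsE n S) (γ : R → Qn n)
    (hγ : ∀ π ∈ S, ∀ i, i ∈ (γ π).1 ↔ π ∣ x i) : tup γ S = x ∧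
      (∀ T : Qn n, ∑ π ∈ od γ S T.1, tt π = 0) ∧ ∀ T : Qn n, od γ S T.1 ≠ ∅ := by
  obtain ⟨h1, h2, h3⟩ := hx
  have e : tup γ S = x := by
    funext i
    have e1 : S.filter (fun π => i ∈ (γ π).1) = PD (x i) := by
      ext π
      rw [mem_filter, ax.mem _ (ax.ne _ (h1 i))]
      constructor
      · rintro ⟨a, b⟩
        exact ⟨hS π a, (hγ π a i).1 b⟩
      · rintro ⟨a, b⟩
        have c : π ∈ S := (h3 π a).2 ⟨i, b⟩
        exact ⟨c, (hγ π c i).2 b⟩
    unfold tup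
    rw [e1, ax.prod _ (h1 i)]
  have h : ∀ i, ClsE (tup γ S i) := by
    intro i; rw [e]; exact h1 i
  refine ⟨e, ?_, ?_⟩
  · intro T
    rw [← ax.cls _ (od_pq hS γ T.1)]
    exact cls_all ax hS γ h T.1
  · intro T hT
    have h4 := prod_tup γ S T.1
    rw [hT, prod_empty, one_mul, e] at h4
    exact h2 T.1 T.2 (cT γ S T.1) 1 one_ne_zero (by rw [h4]; ring)

end main

/-- the extension of a colouring of `S` to all elements -/
noncomputable def exC {Q : Type} [Nonempty Q] (S : Finset R) (c : S → Q) (π : R) : Q :=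
  if h : π ∈ S then c ⟨π, h⟩ else Classical.arbitrary Q

/-- the system -/
noncomputable def sys {I Q : Type} (γ : R → Q) (E : I → Finset Q) (S : Finset R) (a : I) :
    Finset R := S.filter fun π => γ π ∈ E a

/-- all the systems are in the class -/
def ClC (tt : R → ZMod 2) {I Q : Type} (γ : R → Q) (E : I → Finset Q) (S : Finset R) : Prop :=
  ∀ a, ∑ π ∈ sys γ E S a, tt π = 0

/-- the colours that meet `T` in an odd number of elements -/
noncomputable def ET {n : ℕ} (T : Qn n) : Finset (Qn n) := univ.filter fun q => Odd (q.1 ∩ T.1).card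

omit [CommRing R] [IsDomain R] in
lemma sys_ET {n : ℕ} (γ : R → Qn n) (S : Finset R) (T : Qn n) : sys γ ET S T = od γ S T.1 := by
  ext π
  unfold sys od ET
  simp only [mem_filter, mem_univ, true_and]

/-- **the abstract statement** -/
theorem main {Pq ClsE : R → Prop} {PD : R → Finset R} {tt : R → ZMod 2}
    (ax : Ax Pq ClsE PD tt) (Gd : Finset R → Prop) (n : ℕ) [Nonempty (Qn n)] (S : Finset R)
    (hS : ∀ π ∈ S, Pq π) (𝒯 : Finset (Qn n)) :
    {x ∈ TupR Pq ClsE n S | GoR ClsE PD Gd 𝒯 x}.Finite ∧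
    {x ∈ TupR Pq ClsE n S | GoR ClsE PD Gd 𝒯 x}.ncard =
      (univ.filter fun c : S → Qn n => ClC tt (exC S c) ET S ∧
        (∀ T, sys (exC S c) ET S T ≠ ∅) ∧ ∀ T ∈ 𝒯, Gd (sys (exC S c) ET S T)).card := by
  obtain ⟨A, hA⟩ : ∃ A : Finset (S → Qn n), A = univ.filter fun c : S → Qn n =>
      ClC tt (exC S c) ET S ∧ (∀ T, sys (exC S c) ET S T ≠ ∅) ∧
        ∀ T ∈ 𝒯, Gd (sys (exC S c) ET S T) := ⟨_, rfl⟩
  rw [← hA]
  have hmemA : ∀ c, c ∈ A ↔ (∀ T : Qn n, ∑ π ∈ od (exC S c) S T.1, tt π = 0) ∧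
      (∀ T : Qn n, od (exC S c) S T.1 ≠ ∅) ∧ ∀ T ∈ 𝒯, Gd (od (exC S c) S T.1) := by
    intro c
    rw [hA, mem_filter]
    unfold ClC
    simp only [sys_ET, mem_univ, true_and]
  have hset : {x ∈ TupR Pq ClsE n S | GoR ClsE PD Gd 𝒯 x} =
      (fun c : S → Qn n => tup (exC S c) S) '' (A : Set (S → Qn n)) := by
    ext x
    constructor
    · rintro ⟨hx, hg⟩
      obtain ⟨c, hc⟩ : ∃ c : S → Qn n, ∀ (π : R) (h : π ∈ S), ∀ i, i ∈ (c ⟨π, h⟩).1 ↔ π ∣ x i := by
        have : ∀ π : S, ∃ q : Qn n, ∀ i, i ∈ q.1 ↔ (π : R) ∣ x i := by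
          rintro ⟨π, hπ⟩
          refine ⟨⟨univ.filter fun i => π ∣ x i, ?_⟩, fun i => ?_⟩
          · obtain ⟨i, hi⟩ := (hx.2.2 π (hS π hπ)).1 hπ
            exact ⟨i, mem_filter.2 ⟨mem_univ i, hi⟩⟩
          · simp
        choose c hc using this
        exact ⟨c, fun π h i => hc ⟨π, h⟩ i⟩
      have hγ : ∀ π ∈ S, ∀ i, i ∈ (exC S c π).1 ↔ π ∣ x i := by
        intro π hπ i
        unfold exC
        rw [dif_pos hπ]
        exact hc π hπ i
      obtain ⟨h1, h2, h3⟩ := exists_col ax hS hx (exC S c) hγ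
      refine ⟨c, ?_, h1⟩
      rw [mem_coe, hmemA]
      refine ⟨h2, h3, ?_⟩
      rw [← tup_good ax hS (exC S c) h2, h1]
      exact hg
    · rintro ⟨c, hc, rfl⟩
      rw [mem_coe, hmemA] at hc
      exact ⟨tup_mem ax hS _ hc.1 hc.2.1, (tup_good ax hS _ hc.1 Gd 𝒯).2 hc.2.2⟩
  have hinj : Set.InjOn (fun c : S → Qn n => tup (exC S c) S) (A : Set (S → Qn n)) := by
    intro c hc c' hc' he
    rw [mem_coe, hmemA] at hc hc'
    have hcl : ∀ c : S → Qn n, (∀ T : Qn n, ∑ π ∈ od (exC S c) S T.1, tt π = 0) →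
        ∀ i, ClsE (tup (exC S c) S i) := by
      intro c hc i
      rw [tup_eq, ax.cls _ (od_pq hS _ {i})]
      exact hc ⟨{i}, singleton_nonempty i⟩
    funext ⟨π, hπ⟩
    apply Subtype.ext
    ext i
    have h1 := dvd_tup ax hS (exC S c) (hcl c hc.1) (hS π hπ) i
    have h2 := dvd_tup ax hS (exC S c') (hcl c' hc'.1) (hS π hπ) i
    have h3 : tup (exC S c) S = tup (exC S c') S := he
    rw [h3, h2] at h1
    have e1 : exC S c π = c ⟨π, hπ⟩ := by unfold exC; rw [dif_pos hπ]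
    have e2 : exC S c' π = c' ⟨π, hπ⟩ := by unfold exC; rw [dif_pos hπ]
    rw [e1, e2] at h1
    constructor
    · intro h
      exact (h1.2 ⟨hπ, h⟩).2
    · intro h
      exact (h1.1 ⟨hπ, h⟩).2
  constructor
  · rw [hset]
    exact A.finite_toSet.image _
  · rw [hset, Set.InjOn.ncard_image hinj, Set.ncard_coe_finset]

end

end Pool.Agent.N86.QT
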