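import Pool.Agent.N86.QT.Abs
import Pool.Agent.R426.QM.Cls
import Pool.Agent.R426.QK.KEY1

/-!
# QT-NST: the hypotheses of the abstract statement for `ℤ[(1 + √-7) / 2]`
-/

set_option autoImplicit false
set_option linter.unusedVariables false

open scoped Classical

namespace Pool.Agent.N86.QT

open Pool.Agent.Y698 (RR)
open Pool.Agent.R426.QK
open Pool.Agent.R426

theorem axRR : Ax (R := RR) Pq ClsE PD tt where
  pr := fun π h => h.prime
  ne := fun N h => QM.Cls.cls_ne h
  mem := fun N hN π => mem_PD hN
  prod := fun N h => (QM.Cls.cls_ps h).prod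
  cls := by
    intro S hS
    obtain ⟨h1, h2⟩ := PS_prod hS
    rw [NS.cls_iff, h2]
    have h3 := KEY.prod_tt S (fun u => u) hS
    constructor
    · rintro ⟨-, -, h4⟩
      rcases h3 with h | h
      · exact h.2
      · exfalso
        have := h.1
        omega
    · intro h4
      refine ⟨h1, hS, ?_⟩
      rcases h3 with h | h
      · exact h.1
      · exfalso
        rw [h.2] at h4
        exact absurd h4 (by decide)
  PDp := fun S hS => (PS_prod hS).2
  uniq := fun N N' c c' h h' hc hc' he => QM.Cls.uniq h h' hc hc' he
  one := QM.Cls.cls_one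

end Pool.Agent.N86.QT
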