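import Pool.Agent.N869.QT.FStm
import Pool.Agent.N86.QT.AxRR

/-!
# QT-NST: tuples of conductor `S` and colourings of `S`
-/

set_option autoImplicit false
set_option linter.unusedVariables false

open scoped Classical

namespace Pool.Agent.N86.QT

open Finset
open Pool.Agent.Y698
open Pool.Agent.Y698.SG hiding PD
open Pool.Agent.R426.QK

lemma sys_eq {n : ℕ} (γ : RR → Qn n) (S : Finset RR) (T : Qn n) :
    Pool.Agent.N869.QT.G.sys γ Pool.Agent.N869.QT.G.ET S T = sys γ ET S T := by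
  ext π
  unfold Pool.Agent.N869.QT.G.sys sys Pool.Agent.N869.QT.G.ET ET
  simp only [mem_filter, mem_univ, true_and]

lemma ClC_iff {n : ℕ} (γ : RR → Qn n) (S : Finset RR) :
    Pool.Agent.N869.QT.G.ClC tt γ Pool.Agent.N869.QT.G.ET S ↔ ClC tt γ ET S := by
  unfold Pool.Agent.N869.QT.G.ClC ClC
  exact forall_congr' fun T => by rw [sys_eq]

lemma exC_eq {Q : Type} [Nonempty Q] (S : Finset RR) (c : S → Q) :
    Pool.Agent.N869.QT.G.exC S c = exC S c := by
  funext π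
  unfold Pool.Agent.N869.QT.G.exC exC
  by_cases h : π ∈ S
  · simp only [dif_pos h]
  · simp only [dif_neg h]

lemma TupR_eq (n : ℕ) (S : Finset RR) :
    Pool.Agent.N869.QT.TupR n S = TupR Pq ClsE n S := by
  ext x
  unfold Pool.Agent.N869.QT.TupR TupR Pool.Agent.N869.QT.IndR IndR
  exact Iff.rfl

lemma GoR_iff {n : ℕ} (𝒯 : Finset (Qn n)) (x : Fin n → RR) :
    Pool.Agent.N869.QT.GoR 𝒯 x ↔ GoR ClsE PD Gd 𝒯 x := by
  unfold Pool.Agent.N869.QT.GoR GoR
  exact Iff.rfl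

lemma set_eq (n : ℕ) (S : Finset RR) (𝒯 : Finset (Qn n)) :
    {x ∈ Pool.Agent.N869.QT.TupR n S | Pool.Agent.N869.QT.GoR 𝒯 x} =
      {x ∈ TupR Pq ClsE n S | GoR ClsE PD Gd 𝒯 x} := by
  rw [TupR_eq]
  ext x
  simp only [Set.mem_ofPred_eq, GoR_iff]

lemma card_eq' {α : Type} {i1 i2 : Fintype α} {p q : α → Prop} {d1 : DecidablePred p}
    {d2 : DecidablePred q} (h : ∀ a, p a ↔ q a) :
    (@filter α p d1 (@univ α i1)).card = (@filter α q d2 (@univ α i2)).card := by
  congr 1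
  ext a
  rw [mem_filter, mem_filter, h a]
  simp

theorem t_NST : Pool.Agent.N869.QT.S_NST := by
  intro n _ S hS 𝒯
  have h0 := @main RR _ _ Pq ClsE PD tt axRR Gd n _ S hS 𝒯
  rw [set_eq]
  refine ⟨h0.1, ?_⟩
  have h2 := h0.2
  rw [h2]
  refine card_eq' fun c => ?_
  rw [exC_eq, ClC_iff]
  refine and_congr Iff.rfl (and_congr (forall_congr' fun T => ?_) (forall_congr' fun T =>
    forall_congr' fun hT => ?_))
  · rw [sys_eq]
  · rw [sys_eq]

end Pool.Agent.N86.QT
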